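import Pool.Agent.Helper26.RP.Goals

/-!
# Packet CUT: the cut inequality
-/

set_option autoImplicit false

noncomputable section

namespace RP.PkCUT

open MeasureTheory Filter Topology

/-- The reflection as a linear map. -/
def rfL : E →ₗ[ℝ] E := LinearMap.prod (-LinearMap.fst ℝ ℝ ℝ) (LinearMap.snd ℝ ℝ ℝ)

theorem rfL_apply (p : E) : rfL p = rf p := rfl

theorem det_rfL : |LinearMap.det rfL| = 1 := by
  have h1 : rfL * rfL = 1 := by
    refine LinearMap.ext fun p => ?_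
    show rfL (rfL p) = p
    rw [rfL_apply, rfL_apply]
    simp [rf]
  have h2 := congrArg LinearMap.det h1
  rw [map_mul, map_one] at h2
  rw [← abs_mul_abs_self] at h2
  nlinarith [abs_nonneg (LinearMap.det rfL)]

theorem det_smul' (c : ℝ) (f : E →ₗ[ℝ] E) : LinearMap.det (c • f) = c ^ 2 * LinearMap.det f := by
  rw [LinearMap.det_smul]
  simp

theorem bx_eq (c1 c2 r : ℝ) : bx c1 c2 r = Set.Icc (c1 - r) (c1 + r) ×ˢ Set.Icc (c2 - r) (c2 + r) := by
  ext p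
  simp only [bx, Set.mem_ofPred_eq, Set.mem_prod, Set.mem_Icc, abs_le]
  constructor
  · rintro ⟨⟨h1, h2⟩, h3, h4⟩
    refine ⟨⟨?_, ?_⟩, ?_, ?_⟩ <;> linarith
  · rintro ⟨⟨h1, h2⟩, h3, h4⟩
    refine ⟨⟨?_, ?_⟩, ?_, ?_⟩ <;> linarith

theorem vol_bx (c1 c2 r : ℝ) (hr : 0 ≤ r) : volume (bx c1 c2 r) = ENNReal.ofReal ((2 * r) ^ 2) := by
  rw [bx_eq, Measure.volume_eq_prod, Measure.prod_prod, Real.volume_Icc, Real.volume_Icc,
    ← ENNReal.ofReal_mul (by linarith)]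
  congr 1
  ring

theorem cpt_bx (c1 c2 r : ℝ) : IsCompact (bx c1 c2 r) := by
  rw [bx_eq]
  exact isCompact_Icc.prod isCompact_Icc

theorem vc_ne_top {n : ℕ} {K : Set E} (hK : IsCompact K) : vc n K ≠ ⊤ := by
  have h1 : vc n K ≤ volume (Set.pi Set.univ fun _ : Fin n => K) := by
    refine measure_mono fun x hx i _ => ?_
    exact hx.1 i
  have h2 : volume (Set.pi Set.univ fun _ : Fin n => K) < ⊤ := by
    refine IsCompact.measure_lt_top ?_
    exact isCompact_univ_pi fun _ => hK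
  exact (h1.trans_lt h2).ne

theorem far_of {δ σ D Δ : ℝ} (hD : 34 * δ ≤ D) (hΔ : δ ≤ Δ) (hσ : σ * D = 4 * Δ)
    (hσ0 : 0 ≤ σ) {p : E} (h1 : p.1 ≤ -D) (h2 : |p.2| ≤ Δ) : Far δ σ D p := by
  refine ⟨h1, fun s hs => ?_⟩
  obtain ⟨h3, h4⟩ := hs
  rw [abs_le] at h3 h4 h2 ⊢
  have h5 : D / 2 ≤ s.1 - p.1 := by linarith [h3.1]
  have h6 : σ * (D / 2) ≤ σ * (s.1 - p.1) := mul_le_mul_of_nonneg_left h5 hσ0
  constructor <;> linarith [h4.1, h4.2, h2.1, h2.2]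

theorem cut : G_OP1 → G_OP2 → G_GLU → G_AFF → G_CUT := by
  intro op1 op2 glu aff K d v Δ ρ zL zR a b hc hK hd hdΔ hv hvΔ hΔ hbox hzL hzL1 hzR hzR1 hρ hρ1
    ha hb
  have hΔ0 : 0 < Δ := hd.trans_le hdΔ
  obtain ⟨δ, hδ⟩ : ∃ δ : ℝ, δ = ρ * d * v / (512 * Δ) := ⟨_, rfl⟩
  obtain ⟨D, hD⟩ : ∃ D : ℝ, D = ρ * d := ⟨_, rfl⟩
  obtain ⟨σ, hσ⟩ : ∃ σ : ℝ, σ = 4 * Δ / (ρ * d) := ⟨_, rfl⟩
  have hD0 : 0 < D := by rw [hD]; positivity
  have hδ0 : 0 < δ := by rw [hδ]; positivity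
  have hσ0 : 0 ≤ σ := by rw [hσ]; positivity
  have hDd : D ≤ d := by rw [hD]; nlinarith
  have e1 : 512 * Δ * δ = D * v := by
    rw [hδ, hD]
    field_simp
  have e2 : σ * D = 4 * Δ := by
    rw [hσ, hD]
    field_simp
  have h1 : 512 * δ ≤ v := by
    have h : Δ * (512 * δ) ≤ Δ * v := by nlinarith
    exact le_of_mul_le_mul_left h hΔ0
  have h2 : 512 * δ ≤ D := by
    have h : Δ * (512 * δ) ≤ Δ * D := by nlinarith
    exact le_of_mul_le_mul_left h hΔ0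
  have e3 : 18 * δ * σ = 72 / 512 * v := by
    have h : D * (18 * δ * σ) = D * (72 / 512 * v) := by
      have : D * (18 * δ * σ) = 18 * δ * (σ * D) := by ring
      rw [this, e2]
      linear_combination 72 / 512 * e1
    exact mul_left_cancel₀ hD0.ne' h
  -- the sets
  have hK1 : IsCompact (K ∩ {p : E | p.1 ≤ 0}) :=
    hK.inter_right (isClosed_le continuous_fst continuous_const)
  have hK2 : IsCompact (K ∩ {p : E | 0 ≤ p.1}) :=
    hK.inter_right (isClosed_le continuous_const continuous_fst)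
  obtain ⟨L1, hL1⟩ : ∃ L : E →ₗ[ℝ] E, L = (1 - ρ) • LinearMap.id := ⟨_, rfl⟩
  obtain ⟨L2, hL2⟩ : ∃ L : E →ₗ[ℝ] E, L = (1 - ρ) • rfL := ⟨_, rfl⟩
  have d1 : |LinearMap.det L1| = (1 - ρ) ^ 2 := by
    rw [hL1, det_smul', LinearMap.det_id, mul_one, abs_of_nonneg (sq_nonneg _)]
  have d2 : |LinearMap.det L2| = (1 - ρ) ^ 2 := by
    rw [hL2, det_smul', abs_mul, det_rfL, mul_one, abs_of_nonneg (sq_nonneg _)]
  have hρ' : 0 < (1 - ρ) ^ 2 := by
    have : 0 < 1 - ρ := by linarith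
    positivity
  have n1 : LinearMap.det L1 ≠ 0 := by
    intro h
    rw [h, abs_zero] at d1
    linarith
  have n2 : LinearMap.det L2 ≠ 0 := by
    intro h
    rw [h, abs_zero] at d2
    linarith
  obtain ⟨U1, hU1⟩ : ∃ U : Set E, U = (fun p => L1 p + ρ • zL) '' (K ∩ {p : E | p.1 ≤ 0}) :=
    ⟨_, rfl⟩
  obtain ⟨U2, hU2⟩ : ∃ U : Set E, U = (fun p => L2 p + ρ • rf zR) '' (K ∩ {p : E | 0 ≤ p.1}) :=
    ⟨_, rfl⟩
  have v1 : vc a U1 = ENNReal.ofReal ((1 - ρ) ^ 2) ^ a * vc a (K ∩ {p : E | p.1 ≤ 0}) := by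
    rw [hU1, (aff L1 (ρ • zL) n1).2.1, d1]
  have v2 : vc b U2 = ENNReal.ofReal ((1 - ρ) ^ 2) ^ b * vc b (K ∩ {p : E | 0 ≤ p.1}) := by
    rw [hU2, (aff L2 (ρ • rf zR) n2).2.1, d2]
  have c1 : IsCompact U1 := by
    rw [hU1]
    exact hK1.image (L1.continuous_of_finiteDimensional.add continuous_const)
  have c2 : IsCompact U2 := by
    rw [hU2]
    exact hK2.image (L2.continuous_of_finiteDimensional.add continuous_const)
  have f1 : ∀ p ∈ U1, p ∈ K ∧ Far δ σ D p := by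
    intro p hp
    rw [hU1] at hp
    obtain ⟨q, ⟨hq, hq1⟩, rfl⟩ := hp
    have hq1' : q.1 ≤ 0 := hq1
    have hpK : L1 q + ρ • zL ∈ K := by
      rw [hL1]
      exact hc hq hzL (by linarith) hρ.le (by ring)
    refine ⟨hpK, far_of (by linarith) (by linarith) e2 hσ0 ?_ (hΔ _ hpK)⟩
    have : (L1 q + ρ • zL).1 = (1 - ρ) * q.1 + ρ * zL.1 := by
      rw [hL1]
      simp
    rw [this, hD]
    nlinarith
  have f2 : ∀ p ∈ U2, rf p ∈ K ∧ Far δ σ D p := by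
    intro p hp
    rw [hU2] at hp
    obtain ⟨q, ⟨hq, hq1⟩, rfl⟩ := hp
    have hq1' : 0 ≤ q.1 := hq1
    have hp1 : (L2 q + ρ • rf zR).1 = -((1 - ρ) * q.1 + ρ * zR.1) := by
      rw [hL2]
      simp [rfL_apply, rf]
      ring
    have hp2 : (L2 q + ρ • rf zR).2 = (1 - ρ) * q.2 + ρ * zR.2 := by
      rw [hL2]
      simp [rfL_apply, rf]
    have hrf : rf (L2 q + ρ • rf zR) = (1 - ρ) • q + ρ • zR := by
      refine Prod.ext ?_ ?_
      · show -(L2 q + ρ • rf zR).1 = _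
        rw [hp1]
        simp
      · show (L2 q + ρ • rf zR).2 = _
        rw [hp2]
        simp
    have hpK : rf (L2 q + ρ • rf zR) ∈ K := by
      rw [hrf]
      exact hc hq hzR (by linarith) hρ.le (by ring)
    have hp3 : |(L2 q + ρ • rf zR).2| ≤ Δ := by
      have h := hΔ _ hpK
      exact h
    refine ⟨hpK, far_of (by linarith) (by linarith) e2 hσ0 ?_ hp3⟩
    show (L2 q + ρ • rf zR).1 ≤ -D
    rw [hp1, hD]
    nlinarith
  have hW := cpt_bx (-(16 * δ)) 0 δ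
  have hWv := vol_bx (-(16 * δ)) 0 δ hδ0.le
  have sep : ∀ s ∈ bx (-(16 * δ)) 0 δ, ∀ p : E, Far δ σ D p → p.1 < s.1 := by
    intro s hs p hp
    have h3 := hs.1
    rw [abs_le] at h3
    linarith [hp.1, h3.1]
  have o1 := op1 (bx (-(16 * δ)) 0 δ) U1 a ha hW.measurableSet c1.measurableSet
    hW.measure_lt_top.ne c1.measure_lt_top.ne (fun s hs p hp => sep s hs p (f1 p hp).2)
  have o2 := op1 (bx (-(16 * δ)) 0 δ) U2 b hb hW.measurableSet c2.measurableSet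
    hW.measure_lt_top.ne c2.measure_lt_top.ne (fun s hs p hp => sep s hs p (f2 p hp).2)
  have q1 := op2 (bx (-(16 * δ)) 0 δ) U1 a ha hW.measurableSet c1.measurableSet
  have q2 := op2 (bx (-(16 * δ)) 0 δ) U2 b hb hW.measurableSet c2.measurableSet
  have g := glu δ v σ D a b K U1 U2 hδ0 (by linarith) hσ0 (by rw [e3]; linarith) (by linarith)
    (by omega) (by omega) f1 f2 (by
      refine subset_trans ?_ hbox
      intro p hp
      obtain ⟨h3, h4⟩ := hp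
      rw [abs_le] at h3 h4
      exact ⟨abs_le.2 ⟨by linarith [h3.1], by linarith [h3.2]⟩,
        abs_le.2 ⟨by linarith [h4.1], by linarith [h4.2]⟩⟩) (by
      refine subset_trans ?_ hbox
      intro p hp
      obtain ⟨h3, h4⟩ := hp
      rw [abs_le] at h3 h4
      exact ⟨abs_le.2 ⟨by linarith [h3.1], by linarith [h3.2]⟩,
        abs_le.2 ⟨by linarith [h4.1], by linarith [h4.2]⟩⟩) (by
      refine subset_trans ?_ hbox
      intro p hp
      obtain ⟨h3, h4⟩ := hp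
      rw [abs_le] at h3 h4
      exact ⟨abs_le.2 ⟨by linarith [h3.1], by linarith [h3.2]⟩,
        abs_le.2 ⟨by linarith [h4.1], by linarith [h4.2]⟩⟩) (by
      refine subset_trans ?_ hbox
      intro p hp
      obtain ⟨h3, h4⟩ := hp
      rw [abs_le] at h3 h4
      exact ⟨abs_le.2 ⟨by linarith [h3.1], by linarith [h3.2]⟩,
        abs_le.2 ⟨by linarith [h4.1], by linarith [h4.2]⟩⟩)
  -- combine
  rw [hWv, v1] at o1
  rw [hWv, v2] at o2
  have r1 := o1.trans (mul_le_mul_right q1 ((a : ENNReal) ^ 2))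
  have r2 := o2.trans (mul_le_mul_right q2 ((b : ENNReal) ^ 2))
  have r3 : ENNReal.ofReal ((2 * δ) ^ 2) ^ 2 *
      (ENNReal.ofReal ((1 - ρ) ^ 2) ^ a * vc a (K ∩ {p : E | p.1 ≤ 0})) *
      (ENNReal.ofReal ((2 * δ) ^ 2) ^ 2 *
      (ENNReal.ofReal ((1 - ρ) ^ 2) ^ b * vc b (K ∩ {p : E | 0 ≤ p.1}))) *
      ENNReal.ofReal ((2 * δ) ^ 4) ≤ 16 * (a : ENNReal) ^ 2 * (b : ENNReal) ^ 2 *
        vc (a + b + 6) K := by
    calc _ ≤ (a : ENNReal) ^ 2 * (4 * volume (Blk (bx (-(16 * δ)) 0 δ) U1 a)) *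
          ((b : ENNReal) ^ 2 * (4 * volume (Blk (bx (-(16 * δ)) 0 δ) U2 b))) *
          ENNReal.ofReal ((2 * δ) ^ 4) := by
          gcongr
      _ = 16 * (a : ENNReal) ^ 2 * (b : ENNReal) ^ 2 *
          (volume (Blk (bx (-(16 * δ)) 0 δ) U1 a) * volume (Blk (bx (-(16 * δ)) 0 δ) U2 b) *
            ENNReal.ofReal ((2 * δ) ^ 4)) := by ring
      _ ≤ _ := by gcongr
  have hfin : 16 * (a : ENNReal) ^ 2 * (b : ENNReal) ^ 2 * vc (a + b + 6) K ≠ ⊤ := by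
    refine ENNReal.mul_ne_top (ENNReal.mul_ne_top (ENNReal.mul_ne_top (by norm_num) ?_) ?_)
      (vc_ne_top hK)
    · exact ENNReal.pow_ne_top (ENNReal.natCast_ne_top a)
    · exact ENNReal.pow_ne_top (ENNReal.natCast_ne_top b)
  have r4 := ENNReal.toReal_mono hfin r3
  simp only [ENNReal.toReal_mul, ENNReal.toReal_pow, ENNReal.toReal_natCast,
    ENNReal.toReal_ofNat] at r4
  rw [ENNReal.toReal_ofReal (by positivity), ENNReal.toReal_ofReal (by positivity),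
    ENNReal.toReal_ofReal (by positivity)] at r4
  have e4 : ρ * d * v / (256 * Δ) = 2 * δ := by
    rw [hδ]
    field_simp
    norm_num
  rw [e4]
  unfold vr
  refine le_trans (le_of_eq ?_) r4
  rw [pow_mul, pow_add]
  ring

end RP.PkCUT
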