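import Pool.Agent.Helper26.RP.Goals

/-!
# Packet NUL: general position holds almost everywhere
-/

set_option autoImplicit false

noncomputable section

namespace RP.PkNUL

open MeasureTheory Filter Topology

theorem hyper_null {F : Type*} [NormedAddCommGroup F] [NormedSpace ℝ F] [MeasurableSpace F]
    [BorelSpace F] [FiniteDimensional ℝ F] (μ : Measure F) [μ.IsAddHaarMeasure]
    (f : F →ₗ[ℝ] ℝ) (hf : f ≠ 0) (c : ℝ) : μ {p | f p = c} = 0 := by
  obtain ⟨p0, hp0⟩ := LinearMap.surjective hf c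
  have h1 : {p | f p = c} = (AffineSubspace.mk' p0 (LinearMap.ker f) : Set F) := by
    ext p
    rw [SetLike.mem_coe, AffineSubspace.mem_mk', vsub_eq_sub, LinearMap.mem_ker, map_sub, hp0,
      sub_eq_zero]
    rfl
  rw [h1]
  refine Measure.addHaar_affineSubspace μ _ fun h => hf ?_
  have h2 := congrArg AffineSubspace.direction h
  rw [AffineSubspace.direction_mk', AffineSubspace.direction_top] at h2
  exact LinearMap.ker_eq_top.1 h2

/-- The functional of a line. -/
def lf (a b : E) : E →ₗ[ℝ] ℝ :=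
  (b.1 - a.1) • LinearMap.snd ℝ ℝ ℝ - (b.2 - a.2) • LinearMap.fst ℝ ℝ ℝ

theorem lf_apply (a b p : E) : lf a b p = (b.1 - a.1) * p.2 - (b.2 - a.2) * p.1 := rfl

theorem lf_ne {a b : E} (h : a ≠ b) : lf a b ≠ 0 := by
  intro h0
  apply h
  have h1 := lf_apply a b (1, 0)
  have h2 := lf_apply a b (0, 1)
  rw [h0] at h1 h2
  simp only [LinearMap.zero_apply] at h1 h2
  refine Prod.ext ?_ ?_ <;> linarith

theorem orient_iff (a b p : E) : orient a b p = 0 ↔ lf a b p = lf a b a := by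
  rw [lf_apply, lf_apply, orient]
  constructor <;> intro h <;> linarith

theorem nul1 (a b : E) (h : a ≠ b) : volume {p : E | orient a b p = 0} = 0 := by
  simp_rw [orient_iff]
  exact hyper_null volume (lf a b) (lf_ne h) _

theorem nul3' {ι : Type} [Fintype ι] {i j : ι} (h : i ≠ j) :
    volume {x : ι → E | (x i).1 = (x j).1} = 0 := by
  classical
  obtain ⟨f, hf⟩ : ∃ f : (ι → E) →ₗ[ℝ] ℝ, f = (LinearMap.fst ℝ ℝ ℝ).comp (LinearMap.proj i) -
      (LinearMap.fst ℝ ℝ ℝ).comp (LinearMap.proj j) := ⟨_, rfl⟩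
  have hf' : ∀ x, f x = (x i).1 - (x j).1 := by
    intro x
    rw [hf]
    rfl
  have h1 : {x : ι → E | (x i).1 = (x j).1} = {x | f x = 0} := by
    ext x
    show _ = _ ↔ _ = _
    rw [hf', sub_eq_zero]
  rw [h1]
  refine hyper_null volume f ?_ 0
  intro h0
  have h2 := hf' (fun l => if l = i then (1, 0) else 0)
  rw [h0] at h2
  simp [h.symm] at h2

theorem cont_orient : Continuous fun z : E × E × E => orient z.1 z.2.1 z.2.2 := by
  unfold orient
  fun_prop

theorem nul2' {ι : Type} [Fintype ι] {i j k : ι} (hij : i ≠ j) (hjk : j ≠ k) (hik : i ≠ k) :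
    volume {x : ι → E | orient (x i) (x j) (x k) = 0} = 0 := by
  classical
  obtain ⟨T, hT⟩ : ∃ T : Set (({l : ι // l ≠ k} → E) × ({l : ι // ¬ l ≠ k} → E)),
      T = {z | orient (z.1 ⟨i, hik⟩) (z.1 ⟨j, hjk⟩) (z.2 ⟨k, not_not.2 rfl⟩) = 0} := ⟨_, rfl⟩
  have hTm : MeasurableSet T := by
    rw [hT]
    refine (isClosed_eq ?_ continuous_const).measurableSet
    unfold orient
    fun_prop
  have hT0 : volume T = 0 := by
    rw [Measure.volume_eq_prod, Measure.measure_prod_null hTm]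
    have h1 : ∀ᵐ z : {l : ι // l ≠ k} → E, z ⟨i, hik⟩ ≠ z ⟨j, hjk⟩ := by
      have h2 := nul3' (ι := {l : ι // l ≠ k}) (i := ⟨i, hik⟩) (j := ⟨j, hjk⟩)
        (by simpa using hij)
      refine (ae_iff.2 ?_)
      refine measure_mono_null (fun z hz => ?_) h2
      have hz' : z ⟨i, hik⟩ = z ⟨j, hjk⟩ := not_not.1 hz
      show (z ⟨i, hik⟩).1 = (z ⟨j, hjk⟩).1
      rw [hz']
    filter_upwards [h1] with z hz
    obtain ⟨f, hf⟩ : ∃ f : ({l : ι // ¬ l ≠ k} → E) →ₗ[ℝ] ℝ,
        f = (lf (z ⟨i, hik⟩) (z ⟨j, hjk⟩)).comp (LinearMap.proj ⟨k, not_not.2 rfl⟩) := ⟨_, rfl⟩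
    have h3 : Prod.mk z ⁻¹' T = {y | f y = lf (z ⟨i, hik⟩) (z ⟨j, hjk⟩) (z ⟨i, hik⟩)} := by
      ext y
      rw [hT, hf]
      exact orient_iff _ _ _
    rw [h3]
    refine hyper_null volume f ?_ _
    intro h0
    apply lf_ne hz
    refine LinearMap.ext fun p => ?_
    have h4 : f (fun _ => p) = lf (z ⟨i, hik⟩) (z ⟨j, hjk⟩) p := by
      rw [hf]
      rfl
    rw [← h4, h0]
    rfl
  have hp := volume_preserving_piEquivPiSubtypeProd (fun _ : ι => E) (fun l => l ≠ k)
  have h5 := hp.measure_preimage_equiv T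
  rw [hT0] at h5
  rw [← h5, hT]
  rfl

theorem nul : G_NUL := by
  refine ⟨nul1, ?_, ?_⟩
  · intro ι _
    have h : ∀ i j k : ι, ∀ᵐ x : ι → E, i ≠ j → j ≠ k → i ≠ k →
        orient (x i) (x j) (x k) ≠ 0 := by
      intro i j k
      by_cases h : i ≠ j ∧ j ≠ k ∧ i ≠ k
      · have h1 := nul2' h.1 h.2.1 h.2.2
        have h2 : ∀ᵐ x : ι → E, orient (x i) (x j) (x k) ≠ 0 := by
          rw [ae_iff]
          simpa using h1
        filter_upwards [h2] with x hx _ _ _ using hx
      · exact Eventually.of_forall fun x h1 h2 h3 => absurd ⟨h1, h2, h3⟩ h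
    unfold GP
    rw [ae_all_iff]
    intro i
    rw [ae_all_iff]
    intro j
    rw [ae_all_iff]
    intro k
    exact h i j k
  · intro ι _
    have h : ∀ i j : ι, ∀ᵐ x : ι → E, (x i).1 = (x j).1 → i = j := by
      intro i j
      by_cases h : i = j
      · exact Eventually.of_forall fun x _ => h
      · have h1 := nul3' h
        have h2 : ∀ᵐ x : ι → E, ¬ (x i).1 = (x j).1 := by
          rw [ae_iff]
          simpa using h1
        filter_upwards [h2] with x hx h3
        exact absurd h3 hx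
    unfold Function.Injective
    rw [ae_all_iff]
    intro i
    rw [ae_all_iff]
    intro j
    exact h i j

end RP.PkNUL
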